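import Pool.Agent.E8helper30.TD.Stm

/-!
# Project TD (helper30), piece RAD: the covering radius of the triangular lattice
-/

set_option autoImplicit false

namespace Pool.Agent.E8helper54.TD

open Pool.Agent.E8helper30.TD

/-- the norm form -/
def nf (x y : ℝ) : ℝ := x ^ 2 + x * y + y ^ 2

lemma three (x y : ℝ) (hx : 0 ≤ x) (hy : 0 ≤ y) (hxy : x + y ≤ 1) :
    nf x y ≤ 1 / 3 ∨ nf (x - 1) y ≤ 1 / 3 ∨ nf x (y - 1) ≤ 1 / 3 := by
  by_contra hcon
  push Not at hcon
  obtain ⟨h0, h1, h2⟩ := hcon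
  have e : (1 - x - y) * (nf x y - 1 / 3) + x * (nf (x - 1) y - 1 / 3) +
      y * (nf x (y - 1) - 1 / 3) =
      -((x - 1 / 3) ^ 2 + (x - 1 / 3) * (y - 1 / 3) + (y - 1 / 3) ^ 2) := by
    unfold nf
    ring
  have hq : 0 ≤ (x - 1 / 3) ^ 2 + (x - 1 / 3) * (y - 1 / 3) + (y - 1 / 3) ^ 2 := by
    nlinarith [sq_nonneg ((x - 1 / 3) + (y - 1 / 3)), sq_nonneg (x - 1 / 3), sq_nonneg (y - 1 / 3)]
  have p0 : 0 ≤ (1 - x - y) * (nf x y - 1 / 3) := mul_nonneg (by linarith) (by linarith)
  have p1 : 0 ≤ x * (nf (x - 1) y - 1 / 3) := mul_nonneg hx (by linarith)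
  have p2 : 0 ≤ y * (nf x (y - 1) - 1 / 3) := mul_nonneg hy (by linarith)
  have q1 : x * (nf (x - 1) y - 1 / 3) = 0 := by linarith
  have q2 : y * (nf x (y - 1) - 1 / 3) = 0 := by linarith
  have q0 : (1 - x - y) * (nf x y - 1 / 3) = 0 := by linarith
  have r1 : x = 0 := by
    rcases mul_eq_zero.1 q1 with h | h
    · exact h
    · linarith
  have r2 : y = 0 := by
    rcases mul_eq_zero.1 q2 with h | h
    · exact h
    · linarith
  rcases mul_eq_zero.1 q0 with h | h
  · linarith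
  · linarith

lemma om_re : om.re = 1 / 2 := by
  unfold om
  have e : Complex.I * (Real.pi / 3) = ((Real.pi / 3 : ℝ) : ℂ) * Complex.I := by
    push_cast; ring
  rw [e, Complex.exp_ofReal_mul_I_re, Real.cos_pi_div_three]

lemma om_im : om.im = √3 / 2 := by
  unfold om
  have e : Complex.I * (Real.pi / 3) = ((Real.pi / 3 : ℝ) : ℂ) * Complex.I := by
    push_cast; ring
  rw [e, Complex.exp_ofReal_mul_I_im, Real.sin_pi_div_three]

lemma norm_sq (d u v : ℝ) (z : ℂ) (hz : z.re = d * (u + v / 2)) (hz' : z.im = d * (v * (√3 / 2)))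
    (a b : ℤ) : ‖(d : ℂ) * (a + b * om) - z‖ ^ 2 = d ^ 2 * nf (a - u) (b - v) := by
  rw [Complex.sq_norm, Complex.normSq_apply]
  have hs : √3 * √3 = (3 : ℝ) := Real.mul_self_sqrt (by norm_num)
  have e1 : ((d : ℂ) * (a + b * om) - z).re = d * ((a - u) + (b - v) / 2) := by
    simp only [Complex.sub_re, Complex.mul_re, Complex.add_re, Complex.ofReal_re,
      Complex.ofReal_im, Complex.intCast_re, Complex.intCast_im, om_re, hz]
    ring
  have e2 : ((d : ℂ) * (a + b * om) - z).im = d * ((b - v) * (√3 / 2)) := by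
    simp only [Complex.sub_im, Complex.mul_im, Complex.add_im, Complex.add_re, Complex.mul_re,
      Complex.ofReal_re, Complex.ofReal_im, Complex.intCast_re, Complex.intCast_im, om_im, hz']
    ring
  rw [e1, e2]
  unfold nf
  linear_combination (d ^ 2 * (b - v) ^ 2 / 4) * hs

theorem t_RAD : S_RAD := by
  intro d z hd
  have hs : 0 < √3 := by positivity
  set v : ℝ := z.im / (d * (√3 / 2)) with hv
  set u : ℝ := z.re / d - v / 2 with hu
  have hz : z.re = d * (u + v / 2) := by
    rw [hu]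
    field_simp
    ring
  have hz' : z.im = d * (v * (√3 / 2)) := by
    rw [hv]
    field_simp
  have main : ∃ a b : ℤ, nf (a - u) (b - v) ≤ 1 / 3 := by
    have fu0 := Int.fract_nonneg u
    have fv0 := Int.fract_nonneg v
    have fu1 := (Int.fract_lt_one u).le
    have fv1 := (Int.fract_lt_one v).le
    have eu : (⌊u⌋ : ℝ) = u - Int.fract u := by rw [Int.self_sub_fract]
    have ev : (⌊v⌋ : ℝ) = v - Int.fract v := by rw [Int.self_sub_fract]
    rcases le_total (Int.fract u + Int.fract v) 1 with h | h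
    · rcases three _ _ fu0 fv0 h with h1 | h1 | h1
      · refine ⟨⌊u⌋, ⌊v⌋, ?_⟩
        rw [eu, ev]
        refine le_trans (le_of_eq ?_) h1
        unfold nf
        ring
      · refine ⟨⌊u⌋ + 1, ⌊v⌋, ?_⟩
        push_cast
        rw [eu, ev]
        refine le_trans (le_of_eq ?_) h1
        unfold nf
        ring
      · refine ⟨⌊u⌋, ⌊v⌋ + 1, ?_⟩
        push_cast
        rw [eu, ev]
        refine le_trans (le_of_eq ?_) h1
        unfold nf
        ring
    · rcases three (1 - Int.fract u) (1 - Int.fract v) (by linarith) (by linarith)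
        (by linarith) with h1 | h1 | h1
      · refine ⟨⌊u⌋ + 1, ⌊v⌋ + 1, ?_⟩
        push_cast
        rw [eu, ev]
        refine le_trans (le_of_eq ?_) h1
        unfold nf
        ring
      · refine ⟨⌊u⌋, ⌊v⌋ + 1, ?_⟩
        push_cast
        rw [eu, ev]
        refine le_trans (le_of_eq ?_) h1
        unfold nf
        ring
      · refine ⟨⌊u⌋ + 1, ⌊v⌋, ?_⟩
        push_cast
        rw [eu, ev]
        refine le_trans (le_of_eq ?_) h1
        unfold nf
        ring
  obtain ⟨a, b, hab⟩ := main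
  refine ⟨(d : ℂ) * (a + b * om), ⟨a, b, rfl⟩, ?_⟩
  have h1 := norm_sq d u v z hz hz' a b
  have h2 : ‖(d : ℂ) * (a + b * om) - z‖ ^ 2 ≤ (d / √3) ^ 2 := by
    rw [h1, div_pow, Real.sq_sqrt (by norm_num)]
    have := mul_le_mul_of_nonneg_left hab (sq_nonneg d)
    calc d ^ 2 * nf (a - u) (b - v) ≤ d ^ 2 * (1 / 3) := this
      _ = d ^ 2 / 3 := by ring
  exact (pow_le_pow_iff_left₀ (norm_nonneg _) (by positivity) two_ne_zero).1 h2

end Pool.Agent.E8helper54.TD
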